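import Pool.Agent.Lib.MP_96a0c3_al.Gro.Core

/-! A group of finite exponent with polynomial growth at infinitely many scales is finite. -/

namespace Pool.Agent.Gro

open scoped Classical Pointwise RealInnerProductSpace Topology
open Finset Filter

variable {Q : Type} [Group Q] {S : Finset Q} {U : Ultrafilter ℕ} {c : ℝ}

section
open Real

theorem ent_freqF (h : Gen S) {C D : ℕ} 
    (hg : ∃ᶠ n : ℕ in atTop, (S ^ n).card ≤ C * (n + 1) ^ D) :
    ∃ᶠ n : ℕ in atTop, ent S (n + 1) - ent S n ≤ (D + 1) / (n + 1) := by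
  intro hn
  obtain ⟨k, hk⟩ := eventually_atTop.1 hn
  have h1 : ∀ n, k ≤ n →
      ent S k - (D + 1) * log (k + 1) ≤ ent S n - (D + 1) * log (n + 1) := fun n hn => by
    induction n, hn using Nat.le_induction with
    | base => exact le_rfl
    | succ n hn ih =>
      have h0 : (0 : ℝ) < n + 1 := by positivity
      have h2 := log_le_sub_one_of_pos (x := (n + 1 + 1) / (n + 1)) (by positivity)
      rw [log_div (by positivity) h0.ne', add_div, div_self h0.ne', add_sub_cancel_left] at h2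
      have h3 := mul_le_mul_of_nonneg_left h2 (show (0 : ℝ) ≤ D + 1 by positivity)
      have h4 := not_le.1 (hk n hn)
      rw [mul_one_div] at h3
      push_cast
      linarith
  have h2 : ∀ n : ℕ, (S ^ n).card ≤ C * (n + 1) ^ D → ent S n ≤ log C + D * log (n + 1) :=
      fun n hg => by
    have h3 : 0 < (S ^ n).card := card_pos.2 ⟨1, one_mem_pow h.one⟩
    have h4 : (C : ℝ) ≠ 0 := by
      rintro h4
      rw [Nat.cast_eq_zero.1 h4, zero_mul] at hg
      omega
    rw [← log_pow, ← log_mul h4 (by positivity)]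
    exact (ent_le h n).trans (log_le_log (Nat.cast_pos.2 h3) (by exact_mod_cast hg))
  have h3 : Tendsto (fun n : ℕ => log ((n : ℝ) + 1)) atTop atTop :=
    tendsto_log_atTop.comp (tendsto_atTop_add_const_right _ _ tendsto_natCast_atTop_atTop)
  obtain ⟨n, h6, h4, h5⟩ := (hg.and_eventually ((h3.eventually_gt_atTop
    (log C - (ent S k - (D + 1) * log (k + 1)))).and (eventually_ge_atTop k))).exists
  linarith [h1 n h5, h2 n h6]

end

theorem exists_vecF [Infinite Q] (h : Gen S) {C D : ℕ}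
    (hg : ∃ᶠ n : ℕ in atTop, (S ^ n).card ≤ C * (n + 1) ^ D) {δ : ℝ} (hδ : 0 < δ) :
    ∃ ξ, en S ξ = 1 ∧ ‖ξ - P S ξ‖ ^ 2 ≤ δ := by
  have h0 : ∀ k, 0 < en S (xi S k) := fun k => not_le.1 fun hn => by
    nlinarith [en_lower h k, mul_nonneg (sq_nonneg (((S ^ k).card : ℝ) * (2 * k + 1 : ℕ))) h.pos.le]
  obtain ⟨ξ, h1, h2⟩ : ∃ ξ, 0 < en S ξ ∧ ‖ξ - P S ξ‖ ^ 2 ≤ δ * en S ξ := by
    by_contra! hn
    obtain ⟨r, hr⟩ : ∃ r, r = 1 - 2 * δ / S.card := ⟨_, rfl⟩
    have h1 : ∀ k, en S (xi S (k + 1)) ≤ r * en S (xi S k) := fun k =>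
      le_of_mul_le_mul_left (by
        rw [← mul_assoc, hr, mul_sub, mul_div_cancel₀ _ h.pos.ne', xi_succ]
        linarith [en_P h (xi S k), hn _ (h0 k)]) h.pos
    have h2 : 0 < r := pos_of_mul_pos_left ((h0 1).trans_le (h1 0)) (h0 0).le
    have h3 : ∀ k, en S (xi S k) ≤ r ^ k * en S (xi S 0) := fun k => by
      induction k with
      | zero => simp
      | succ k ih =>
        rw [pow_succ', mul_assoc]
        exact (h1 k).trans (mul_le_mul_of_nonneg_left ih h2.le)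
    have h4 := ((tendsto_pow_const_mul_const_pow_of_abs_lt_one (2 * (D + 1)) (r := r) (by
      rw [abs_of_pos h2, hr, sub_lt_self_iff]
      exact div_pos (by linarith) h.pos)).comp (tendsto_add_atTop_nat 1)).const_mul
        ((2 * C) ^ 2 * (S.card * (2 * en S (xi S 0))))
    refine absurd (ge_of_tendsto_of_frequently h4 (hg.mono fun k hk => ?_)) (not_le.2 (by rwa [mul_zero]))
    have h5 : ((S ^ k).card : ℝ) * (2 * k + 1 : ℕ) ≤ 2 * C * (k + 1 : ℕ) ^ (D + 1) := by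
      norm_cast
      rw [pow_succ]
      nlinarith [Nat.mul_le_mul hk (show 2 * k + 1 ≤ 2 * (k + 1) by omega)]
    have h6 := mul_le_mul_of_nonneg_left ((en_lower h k).trans (mul_le_mul
      (pow_le_pow_left₀ (by positivity) h5 2) (mul_le_mul_of_nonneg_left
        (mul_le_mul_of_nonneg_left (h3 k) zero_le_two) h.pos.le)
      (mul_pos h.pos (mul_pos two_pos (h0 k))).le (sq_nonneg _))) h2.le
    refine (mul_one r).ge.trans (h6.trans_eq ?_)
    simp only [Function.comp]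
    ring
  have h3 : (√(en S ξ))⁻¹ ^ 2 * en S ξ = 1 := by
    rw [inv_pow, Real.sq_sqrt h1.le, inv_mul_cancel₀ h1.ne']
  generalize (√(en S ξ))⁻¹ = c at h3
  refine ⟨c • ξ, ?_, ?_⟩
  · rw [en, map_smul, ← smul_sub, real_inner_smul_left, real_inner_smul_right, ← mul_assoc, ← sq,
      ← en, h3]
  · rw [map_smul, ← smul_sub, norm_smul, mul_pow, Real.norm_eq_abs, sq_abs]
    nlinarith [mul_le_mul_of_nonneg_left h2 (sq_nonneg c)]

theorem exists_approxF [Infinite Q] (h : Gen S) {C D : ℕ}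
    (hg : ∃ᶠ n : ℕ in atTop, (S ^ n).card ≤ C * (n + 1) ^ D) {δ : ℝ} (hδ : 0 < δ) :
    ∃ f : Q → ℝ, f 1 = 0 ∧ (∀ x, (av S (fun s => f (x * s)) - f x) ^ 2 ≤ δ * (S.card * 2)) ∧
      (∀ x, ∀ s ∈ S, (f (x * s) - f x) ^ 2 ≤ (S.card * 2) ^ 2) ∧ 1 ≤ ∑ s ∈ S, f s ^ 2 := by
  obtain ⟨ξ, h1, h2⟩ := exists_vecF h hg hδ
  have h3 : ∀ s ∈ S, ‖ξ - lam s ξ‖ ^ 2 ≤ S.card * 2 := fun s hs => by
    simpa [h1] using en_le h ξ hs
  obtain ⟨t, ht, h4⟩ : ∃ t ∈ S, 1 ≤ ‖ξ - lam t ξ‖ ^ 2 := by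
    by_contra! hn
    have := av_mono fun s hs => (hn s hs).le
    rw [en_eq h, h.av_const] at this
    linarith
  have cs : ∀ (x : Q) (η : L2 Q) (c : ℝ), ‖η‖ ^ 2 ≤ c →
      ⟪lam x η, ξ - lam t ξ⟫ ^ 2 ≤ c * (S.card * 2) := fun x η c hc => by
    have := real_inner_mul_inner_self_le (lam x η) (ξ - lam t ξ)
    rw [real_inner_self_eq_norm_sq, real_inner_self_eq_norm_sq, (lam x).norm_map, ← sq] at this
    exact this.trans (mul_le_mul hc (h3 t ht) (sq_nonneg _) ((sq_nonneg _).trans hc))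
  have e : ∀ x s, ⟪ξ - lam (x * s) ξ, ξ - lam t ξ⟫ - ⟪ξ - lam x ξ, ξ - lam t ξ⟫ =
      ⟪lam x (ξ - lam s ξ), ξ - lam t ξ⟫ := fun x s => by
    rw [← inner_sub_left, map_sub, lam_mul, sub_sub_sub_cancel_left]
  refine ⟨fun x => ⟪ξ - lam x ξ, ξ - lam t ξ⟫, by simp [lam_one], fun x => ?_, fun x s hs => ?_,
    le_trans ?_ (single_le_sum (fun _ _ => sq_nonneg _) ht)⟩
  · refine le_trans (le_of_eq (congrArg (· ^ 2) ?_)) (cs x _ δ h2)
    beta_reduce
    rw [← h.av_const ⟪ξ - lam x ξ, _⟫, ← av_sub, av_congr fun s _ => e x s, inner_lam,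
      real_inner_comm, inner_sub_left, P_inner, ← h.av_const ⟪ξ, _⟫, ← av_sub]
    exact av_congr fun s _ => by rw [inner_lam, real_inner_comm, inner_sub_left]
  · rw [e, sq (_ * _)]
    exact cs x _ _ (h3 s hs)
  · rw [real_inner_self_eq_norm_sq]
    exact one_le_pow₀ h4

theorem exists_LHF [Infinite Q] (h : Gen S) {C D : ℕ}
    (hg : ∃ᶠ n : ℕ in atTop, (S ^ n).card ≤ C * (n + 1) ^ D) : ∃ f, LH S f ∧ f ≠ 0 := by
  choose f h1 h2 h3 h4 using fun m : ℕ => exists_approxF h hg (δ := 1 / (m + 1)) (by positivity)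
  have hb : ∀ x, ∃ B : ℝ, ∀ m, |f m x| ≤ B := h.ind ⟨0, fun m => by simp [h1]⟩
    fun x s hs ⟨B, hB⟩ => ⟨B + S.card * 2, fun m => by
      linarith [abs_le_of_sq_le_sq (h3 m x s hs) (by positivity), abs_sub_abs_le_abs_sub
        (f m (x * s)) (f m x), hB m]⟩
  choose B hB using hb
  obtain ⟨F, -, hF⟩ := (isCompact_univ_pi fun x => isCompact_Icc (a := -B x)
    (b := B x)).ultrafilter_le_nhds ((hyperfilter ℕ).map f) (le_principal_iff.2 (mem_map.2
      (univ_mem' fun m x _ => abs_le.1 (hB x m))))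
  have hF : ∀ x, Tendsto (fun m => f m x) (hyperfilter ℕ) (𝓝 (F x)) := tendsto_pi_nhds.1 hF
  refine ⟨F, ⟨tendsto_nhds_unique (hF 1) (by simp [h1]), fun x => ?_,
    _, fun x s hs => le_of_tendsto' (((hF _).sub (hF x)).pow 2) fun m => h3 m x s hs⟩, ?_⟩
  · have := le_of_tendsto_of_tendsto' ((((tendsto_finsetSum S fun s _ => hF (x * s)).div_const
      (S.card : ℝ)).sub (hF x)).pow 2) ((tendsto_one_div_add_atTop_nhds_zero_nat.mono_left
        Nat.hyperfilter_le_atTop).mul_const (S.card * 2 : ℝ)) fun m => h2 m x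
    rw [zero_mul] at this
    exact sub_eq_zero.1 (pow_eq_zero_iff two_ne_zero |>.1 (this.antisymm (sq_nonneg _)))
  · rintro rfl
    have := ge_of_tendsto' (tendsto_finsetSum S fun s _ => (hF s).pow 2) h4
    norm_num at this

theorem exists_goodF (h : Gen S) {C D : ℕ} 
    (hg : ∃ᶠ n : ℕ in atTop, (S ^ n).card ≤ C * (n + 1) ^ D) :
    ∃ U c, Good S U c := by
  have := frequently_iff_neBot.1 (ent_freqF h hg)
  obtain ⟨U, hU⟩ := Ultrafilter.exists_le (atTop ⊓ 𝓟 {n : ℕ | ent S (n + 1) - ent S n ≤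
    (D + 1) / (n + 1)})
  refine ⟨U, S.card * (D + 1) * 2, h, hU.trans inf_le_left, by positivity,
    Eventually.mono (le_principal_iff.1 (hU.trans inf_le_right)) fun n hn s hs F =>
      (key h n hs F).trans ((mul_le_mul_of_nonneg_right (mul_le_mul_of_nonneg_left hn h.pos.le)
        (mul_nonneg zero_le_two (add_nonneg (h.T_nonneg _ (fun _ => sq_nonneg _) _)
          (h.T_nonneg _ (fun _ => sq_nonneg _) _)))).trans_eq (by ring))⟩

/-- an isometric representation of a group of finite exponent has finite image -/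
theorem ker_fin {E : Type} [NormedAddCommGroup E] [NormedSpace ℝ E] [FiniteDimensional ℝ E] {m : ℕ}
    (hp : ∀ q : Q, q ^ (m + 1) = 1) (π : Q →* E ≃ₗᵢ[ℝ] E) :
    ∃ H : Subgroup Q, H.FiniteIndex ∧ H ≤ π.ker := by
  have hd : ∀ g : E ≃ₗᵢ[ℝ] E, ‖op g - 1‖ = 0 → g = 1 := fun g h =>
    LinearIsometryEquiv.ext fun x => DFunLike.congr_fun (sub_eq_zero.1 (norm_eq_zero.1 h)) x
  obtain ⟨ε, hε⟩ : ∃ ε : ℝ, ε = 1 / 2 / (m + 1 : ℕ) := ⟨_, rfl⟩
  have h0 : 0 < ε := by rw [hε]; positivity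
  let H := Subgroup.closure {g | ‖op (π g) - 1‖ < ε}
  refine ⟨H, ?_, (Subgroup.closure_le _).2 fun g hg => hd _ ?_⟩
  · have hb : TotallyBounded (Set.range fun g => op (π g)) :=
      (isCompact_closedBall 0 ‖(1 : E →L[ℝ] E)‖).totallyBounded.subset (by
        rintro _ ⟨g, rfl⟩
        rw [mem_closedBall_zero_iff, ← op_left (π g) 1, mul_one])
    obtain ⟨t, h1, h2, h3⟩ := Metric.finite_approx_of_totallyBounded hb ε h0
    have := h2.to_subtype
    choose f hf using fun y : t => h1 y.2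
    have : Finite (Q ⧸ H) := .of_surjective (fun y : t => ((f y : Q) : Q ⧸ H)) fun q => by
      obtain ⟨g, rfl⟩ := QuotientGroup.mk_surjective q
      obtain ⟨y, hy, h4⟩ := Set.mem_iUnion₂.1 (h3 ⟨g, rfl⟩)
      refine ⟨⟨y, hy⟩, QuotientGroup.eq.2 (Subgroup.subset_closure ?_)⟩
      rw [Set.mem_ofPred_eq, ← op_left (π (f ⟨y, hy⟩)), mul_sub, ← map_mul, ← map_mul,
        mul_inv_cancel_left, mul_one, show op (π (f ⟨y, hy⟩)) = y from hf _]
      exact mem_ball_iff_norm.1 h4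
    exact Subgroup.finiteIndex_of_finite_quotient
  · have h1 : (0 : ℝ) < (m + 1 : ℕ) := by positivity
    rw [Set.mem_ofPred_eq, hε, lt_div_iff₀ h1, mul_comm] at hg
    have h2 := (len_op.comap π).half_le hg.le
    rw [hp, (len_op.comap π).one] at h2
    have h3 := norm_nonneg (op (π g) - 1)
    exact le_antisymm (by nlinarith) h3

theorem Good.exists_trivF (h : Good S U c) {m : ℕ} (hp : ∀ q : Q, q ^ (m + 1) = 1) :
    ∃ H : Subgroup Q, H.FiniteIndex ∧ ∀ g ∈ H, ∀ f, LH S f → act g f = f := by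
  let := h.core.toNormedAddCommGroup
  let : InnerProductSpace ℝ (V S) := .ofCore h.core.toCore
  have hq : ∀ f g : V S, ⟪f, g⟫ = q S U f.1 g.1 := fun _ _ => rfl
  have key : ∀ (k : ℕ) (v : Fin k → V S), Orthonormal ℝ v → k ≤ 2 * c := fun k v hv => by
    have h1 : ∀ x, ∀ s ∈ S, ∑ i, inc x s (v i) ^ 2 ≤ 2 * c := fun x s hs => by
      have h2 : inc x s (∑ i, inc x s (v i) • v i) ^ 2 ≤ _ :=
        h.grad (∑ i, inc x s (v i) • v i).2 x hs
      rw [← hq, hv.inner_sum, map_sum] at h2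
      simp only [map_smul, smul_eq_mul, conj_trivial, ← sq] at h2
      nlinarith [h.nonneg, sum_nonneg fun i (_ : i ∈ univ) => sq_nonneg (inc x s (v i))]
    have h2 := h.T_le (F := fun y => ∑ i, (v i).1 y ^ 2) (c := 2 * c) fun x => by
      rw [av_sum, sum_congr rfl fun i _ => LH.av_sq (v i).2 h.toGen x, sum_add_distrib, ← av_sum]
      exact add_le_add le_rfl ((av_mono (h1 x)).trans_eq (h.av_const _))
    have h3 := le_of_tendsto' (tendsto_finsetSum univ fun i _ => tendsto_q2 h.toGen U (v i).2)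
      (b := 2 * c) fun n => by
        rw [← sum_div, ← T_sum, div_le_iff₀ (by positivity)]
        simpa [(v _).2.one, mul_comm] using h2 (n + 1) 1
    simpa [← hq, hv.1] using h3
  have : FiniteDimensional ℝ (V S) := Module.rank_lt_aleph0_iff.1
    ((rank_le (n := ⌊2 * c⌋₊) fun s hs => by
      rw [← finrank_span_finset_eq_card hs]
      exact Nat.le_floor (key _ _ ((stdOrthonormalBasis ℝ (Submodule.span ℝ (s : Set (V S))))
        |>.orthonormal.comp_linearIsometry (Submodule.subtypeₗᵢ _)))).trans_lt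
      (Cardinal.natCast_lt_aleph0))
  let a : Q → V S → V S := fun g f => ⟨act g f.1, LH.act f.2 h.toGen g⟩
  have ha : ∀ g k f, a g (a k f) = a (g * k) f := fun g k f => Subtype.ext (act_mul g k _).symm
  have h1 : ∀ f, a 1 f = f := fun f => Subtype.ext (LH.act_one f.2)
  obtain ⟨H, h2, h3⟩ := ker_fin hp (E := V S) (MonoidHom.mk' (fun g =>
    { toFun := a g
      invFun := a g⁻¹
      map_add' := fun f k => Subtype.ext (funext fun x =>
        add_sub_add_comm (f.1 _) (k.1 _) (f.1 _) (k.1 _))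
      map_smul' := fun r f => Subtype.ext (funext fun x => (mul_sub r (f.1 _) (f.1 _)).symm)
      left_inv := fun f => by rw [ha, inv_mul_cancel, h1]
      right_inv := fun f => by rw [ha, mul_inv_cancel, h1]
      norm_map' := fun f => congrArg Real.sqrt (h.q_act g _ f.2) })
    fun g k => LinearIsometryEquiv.ext fun f => (ha g k f).symm)
  exact ⟨H, h2, fun g hg f hf => congrArg Subtype.val
    (show a g ⟨f, hf⟩ = ⟨f, hf⟩ from DFunLike.congr_fun (MonoidHom.mem_ker.1 (h3 hg)) _)⟩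

/-- Gromov's theorem with growth bounds at infinitely many scales, for finite exponent. -/
theorem no_freq [Infinite Q] (h : Gen S) {C D m : ℕ} (hp : ∀ q : Q, q ^ (m + 1) = 1)
    (hg : ∃ᶠ n : ℕ in atTop, (S ^ n).card ≤ C * (n + 1) ^ D) : False := by
  obtain ⟨U, c, hU⟩ := exists_goodF h hg
  obtain ⟨H, h2, h3⟩ := hU.exists_trivF hp
  obtain ⟨f, hf, h0⟩ := exists_LHF h hg
  have h6 : ∀ g ∈ H, ∀ x, f (g * x) = f g + f x := fun g hg x => by
    rw [← congrFun (h3 _ (inv_mem hg) f hf) x, act, inv_inv, add_sub_cancel]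
  have h7 : ∀ g ∈ H, f g = 0 := fun g hg => by
    have : ∀ k : ℕ, f (g ^ k) = k * f g := fun k => by
      induction k with
      | zero => simp [hf.one]
      | succ k ih => rw [pow_succ', h6 g hg, ih, Nat.cast_succ]; ring
    have h8 := this (m + 1)
    rw [hp, hf.one] at h8
    exact (mul_eq_zero.1 h8.symm).resolve_left (by positivity)
  refine h0 (hf.eq_zero h ?_)
  refine (Set.finite_range fun u : Q ⧸ H => f u.out⁻¹).subset ?_
  rintro _ ⟨x, rfl⟩
  obtain ⟨g, hg⟩ := QuotientGroup.mk_out_eq_mul H x⁻¹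
  refine ⟨(x⁻¹ : Q), ?_⟩
  beta_reduce
  rw [hg, mul_inv_rev, inv_inv, h6 _ (inv_mem g.2), h7 _ (inv_mem g.2), zero_add]

end Pool.Agent.Gro
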