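import Pool.Agent.Lib.MP_9675a1_al.Thin.Main
import Pool.Agent.Lib.MP_9675a1_al.Cut.Gro

/-! If all balls of one radius are bases of the action, bounded cuts bound the growth of the
group at infinitely many scales. -/

namespace Pool.Agent.Thin

open Filter
open scoped Classical Pointwise

variable {G : Type} [Group G] {X : Type} [MulAction G X] {l : G → ℕ} {C p : ℕ}

theorem Len.no_freq (h : Len l) {Q : Type} [Group Q] [Infinite Q] (π : G →* Q)
    (sur : Function.Surjective π) (hp : ∀ q : Q, q ^ (p + 1) = 1) {D : ℕ}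
    (hg : ∃ᶠ n : ℕ in atTop, ∀ F : Finset Q, (∀ q ∈ F, ∃ g, l g ≤ n ∧ π g = q) →
      F.card ≤ C * (n + 1) ^ D) : False := by
  have mem : ∀ q, q ∈ (h.fin 1).toFinset.image π ↔ ∃ g, l g ≤ 1 ∧ π g = q := fun q => by simp
  refine Gro.no_freq (S := (h.fin 1).toFinset.image π) ⟨(mem _).2 ⟨1, by simp [h.one], map_one _⟩,
    Finset.ext fun q => ?_, (Subgroup.eq_top_iff' _).2 fun q => ?_⟩ hp (C := C) (D := D)
    (hg.mono fun n hn => hn _ ?_)
  · rw [Finset.mem_inv', mem, mem]
    exact ⟨fun ⟨g, h1, h2⟩ => ⟨g⁻¹, h.inv g ▸ h1, by simp [h2]⟩,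
      fun ⟨g, h1, h2⟩ => ⟨g⁻¹, h.inv g ▸ h1, by simp [h2]⟩⟩
  · obtain ⟨g, rfl⟩ := sur q
    induction hn : l g using Nat.strong_induction_on generalizing g with
    | _ n ih =>
    rcases n with _ | n
    · rw [h.zero g hn, map_one]; exact one_mem _
    · obtain ⟨s, k, h1, h2, rfl⟩ := h.step g n hn.le
      rw [map_mul]
      exact mul_mem (Subgroup.subset_closure ((mem _).2 ⟨s, h1, rfl⟩)) (ih _ (by omega) k rfl)
  · clear hn
    induction n with
    | zero => exact fun q hq => ⟨1, h.one.le, (map_one _).trans (Finset.mem_one.1 hq).symm⟩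
    | succ n ih =>
      intro q hq
      rw [pow_succ] at hq
      obtain ⟨a, ha, b, hb, rfl⟩ := Finset.mem_mul.1 hq
      obtain ⟨g, g1, rfl⟩ := ih a ha
      obtain ⟨s, s1, rfl⟩ := (mem _).1 hb
      exact ⟨g * s, (h.mul _ _).trans (by omega), map_mul _ _ _⟩

/-- a word moves few points out of a set with small boundary -/
theorem Len.lose (h : Len l) (A : Finset X) (hA : (bd l (A : Set X)).ncard ≤ C) (g : G) :
    (A.filter fun y => g • y ∉ A).card ≤ (l g + 1) * C := by
  obtain ⟨γ, g0, g1, g2, -⟩ := h.geo g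
  have f : (bd l (A : Set X)).Finite := A.finite_toSet.subset fun z hz => hz.1
  refine (Finset.card_le_card (t := (Finset.range (l g + 1)).biUnion fun t =>
    f.toFinset.image fun z => (γ t)⁻¹ • z) fun y hy => ?_).trans
      (Finset.card_biUnion_le_card_mul _ _ _ (fun t _ => Finset.card_image_le.trans
        (Set.ncard_eq_toFinset_card _ f ▸ hA)) |>.trans_eq (by rw [Finset.card_range]))
  obtain ⟨h1, h2⟩ := Finset.mem_filter.1 hy
  obtain ⟨t, t1, t2⟩ := exit (l := l) (A := (A : Set X)) g0 g1 (Finset.mem_coe.2 h1) (l g)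
    (by rwa [g2])
  exact Finset.mem_biUnion.2 ⟨t, Finset.mem_range.2 (by omega), Finset.mem_image.2
    ⟨_, (Set.Finite.mem_toFinset _).2 t2, inv_smul_smul _ _⟩⟩

/-- some point of `A` stays with its neighbours in `A` under half of the given words -/
theorem Len.half (h : Len l) (A : Finset X) (hA : (bd l (A : Set X)).ncard ≤ C) (W : Finset G)
    {ι : Type} (F : Finset ι) (g : ι → G) {N : ℕ} (hN : ∀ q ∈ F, ∀ w ∈ W, l (g q * w) + 1 ≤ N)
    (h2 : 2 * (W.card * (N * C)) ≤ A.card) (h0 : A.Nonempty) :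
    ∃ y ∈ A, F.card ≤ 2 * (F.filter fun q => ∀ w ∈ W, g q • w • y ∈ A).card := by
  by_contra! hc
  have h1 : ∀ q ∈ F, A.card ≤ 2 * (A.filter fun y => ∀ w ∈ W, g q • w • y ∈ A).card :=
    fun q hq => by
      have e := Finset.card_filter_add_card_filter_not (s := A) fun y => ∀ w ∈ W, g q • w • y ∈ A
      have : (A.filter fun y => ¬ ∀ w ∈ W, g q • w • y ∈ A).card ≤ W.card * (N * C) := by
        refine (Finset.card_le_card (t := W.biUnion fun w => A.filter fun y => (g q * w) • y ∉ A)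
          fun y hy => ?_).trans (Finset.card_biUnion_le_card_mul _ _ _ fun w hw =>
            (h.lose A hA _).trans (Nat.mul_le_mul_right _ (hN q hq w hw)))
        obtain ⟨y1, y2⟩ := Finset.mem_filter.1 hy
        push Not at y2
        obtain ⟨w, w1, w2⟩ := y2
        exact Finset.mem_biUnion.2 ⟨w, w1, Finset.mem_filter.2 ⟨y1, by rwa [mul_smul]⟩⟩
      omega
  have h3 := Finset.sum_lt_sum_of_nonempty h0 hc
  have h4 := Finset.sum_le_sum h1
  rw [← Finset.mul_sum, Finset.sum_const, smul_eq_mul] at h3 h4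
  simp only [Finset.card_filter] at h3 h4
  rw [Finset.sum_comm, mul_comm F.card] at h4
  omega

theorem Len.no_base (h : Len l) [MulAction.IsPretransitive G X] [Infinite X] {φ : ℕ → ℕ}
    (hy : ∀ (y : X) r, Cs l C y r (φ r)) (hp : ∀ (g : G) (z : X), g ^ (p + 1) • z = z) (L : ℕ) :
    ∃ (y : X) (g : G), (∀ z ∈ bl l y L, g • z = z) ∧ ∃ z : X, g • z ≠ z := by
  by_contra hc
  push Not at hc
  obtain ⟨x⟩ : Nonempty X := inferInstance
  let π := (MulAction.toPermHom G X).rangeRestrict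
  have sur : Function.Surjective π := MonoidHom.rangeRestrict_surjective _
  have : Infinite (MulAction.toPermHom G X).range :=
    .of_surjective (fun q => q.1 x) fun y => (MulAction.exists_smul_eq G x y).elim fun g e => ⟨π g, e⟩
  obtain ⟨W, hW⟩ : ∃ W : Finset G, ∀ w, w ∈ W ↔ l w ≤ L := ⟨(h.fin L).toFinset, by simp⟩
  obtain ⟨M, hM⟩ : ∃ M, M = 2 * (W.card * C) + 1 := ⟨_, rfl⟩
  refine h.no_freq π sur (p := p) (fun q => ?_) (C := 2 * (M * (L + 2)) ^ W.card) (D := W.card)
    (frequently_atTop.2 fun N => ?_)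
  · obtain ⟨g, rfl⟩ := sur q
    rw [← map_pow]
    exact Subtype.ext (Equiv.ext (hp g))
  obtain ⟨A, a1, a2, a3⟩ := hy x (M * (N + L + 1))
  have fA : A.Finite := (h.bl_fin x _).subset a2
  lift A to Finset X using fA
  have a4 : M * (N + L + 1) + 1 ≤ A.card := by
    refine (h.grow x _ ?_).trans ((Set.ncard_le_ncard a1 A.finite_toSet).trans_eq
      (Set.ncard_coe_finset A))
    obtain ⟨y, hy⟩ := (h.bl_fin x (M * (N + L + 1))).infinite_compl.nonempty
    obtain ⟨g, rfl⟩ := MulAction.exists_smul_eq G x y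
    exact ⟨g, hy⟩
  have M0 : 0 < M := by omega
  have a5 : N + L + 1 ≤ A.card / M := (Nat.le_div_iff_mul_le M0).2 (by rw [mul_comm]; omega)
  have a6 := Nat.div_mul_le_self A.card M
  have a7 := Nat.lt_mul_div_succ A.card M0
  obtain ⟨n, hn⟩ : ∃ n, A.card / M = n + L + 1 := ⟨A.card / M - (L + 1), by omega⟩
  rw [hn] at a5 a6 a7
  refine ⟨n, by omega, fun F hF => ?_⟩
  choose! g g1 g2 using hF
  obtain ⟨y, -, y2⟩ := h.half A a3 W F g (N := n + L + 1)
    (fun q hq w hw => by have := h.mul (g q) w; have := g1 q hq; have := (hW w).1 hw; omega)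
    (le_trans (by rw [hM]; nlinarith [Nat.zero_le (n + L)]) a6) (Finset.card_pos.1 (by omega))
  refine y2.trans ?_
  rw [mul_assoc, ← mul_pow]
  refine Nat.mul_le_mul_left _ ((Finset.card_le_card_of_injOn
    (t := Fintype.piFinset fun _ : W => A) (fun q w => g q • w.1 • y) (fun q hq => ?_)
    fun q hq q' hq' e => ?_).trans ?_)
  · exact Fintype.mem_piFinset.2 fun w => (Finset.mem_filter.1 hq).2 _ w.2
  · rw [← g2 q (Finset.mem_filter.1 hq).1, ← g2 q' (Finset.mem_filter.1 hq').1]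
    refine Subtype.ext (Equiv.ext fun z => ?_)
    have := hc y ((g q')⁻¹ * g q) (by
      rintro _ ⟨w, hw, rfl⟩
      rw [mul_smul, inv_smul_eq_iff]
      exact congrFun e ⟨w, (hW w).2 hw⟩) z
    rwa [mul_smul, inv_smul_eq_iff] at this
  · rw [Fintype.card_piFinset, Finset.prod_const, Finset.card_univ, Fintype.card_coe]
    exact Nat.pow_le_pow_left (a7.le.trans (by
      rw [mul_assoc]
      exact Nat.mul_le_mul_left _ (by nlinarith [Nat.zero_le (L * n)]))) _

end Pool.Agent.Thin
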