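import Pool.Agent.Lib.MP_9675a1_al.Cut.Base

/-! There is no infinite transitive action of prime exponent with bounded cuts at all scales. -/

namespace Pool.Agent.Thin

open Filter
open scoped Classical

variable {G : Type} [Group G] {X : Type} [MulAction G X] {l : G → ℕ} {p : ℕ}

/-- the height function on the limit of actions pointed at centres of large fixed balls -/
theorem Len.lim_hor (h : Len l) [MulAction.IsPretransitive G X] (hq : p.Prime)
    (hp : ∀ (g : G) (z : X), g ^ p • z = z) (x : ℕ → X) (k : ℕ → G)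
    (k1 : ∀ n, ∀ z ∈ bl l (x n) n, k n • z = z) (k2 : ∀ n, ∃ z : X, k n • z ≠ z) :
    ∃ ξ : G ⧸ lim (hyperfilter ℕ) x → ℤ, Hor l ξ := by
  have ex : ∀ n (y : X), ∃ m, ∃ g : G, l g ≤ m ∧ k n • g • y ≠ g • y := fun n y => by
    obtain ⟨z, hz⟩ := k2 n
    obtain ⟨g, rfl⟩ := MulAction.exists_smul_eq G y z
    exact ⟨_, g, le_rfl, hz⟩
  let D : ℕ → X → ℕ := fun n y => Nat.find (ex n y)
  have D1 : ∀ n y, ∃ g : G, l g ≤ D n y ∧ k n • g • y ≠ g • y := fun n y => Nat.find_spec (ex n y)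
  have D2 : ∀ n y (g : G), k n • g • y ≠ g • y → D n y ≤ l g := fun n y g e =>
    Nat.find_min' (ex n y) ⟨g, le_rfl, e⟩
  have lip : ∀ n (g : G) y, D n (g • y) ≤ D n y + l g := fun n g y => by
    obtain ⟨a, a1, a2⟩ := D1 n y
    have := D2 n (g • y) (a * g⁻¹) (by simpa [mul_smul] using a2)
    have := h.mul a g⁻¹
    have := h.inv g
    omega
  have lip' : ∀ n (g : G) y, D n y ≤ D n (g • y) + l g := fun n g y => by
    simpa [h.inv] using lip n g⁻¹ (g • y)
  set U := hyperfilter ℕ with hU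
  have li : ∀ y : G ⧸ lim U x, ∃ z : ℤ, ∀ g : G, (g : G ⧸ lim U x) = y →
      ∀ᶠ n in (U : Filter ℕ), (D n (g • x n) : ℤ) - D n (x n) = z := fun y => by
    obtain ⟨g, rfl⟩ := QuotientGroup.mk_surjective y
    obtain ⟨z, -, hz⟩ := (Ultrafilter.eventually_exists_mem_iff (f := U)
      (P := fun z n => (D n (g • x n) : ℤ) - D n (x n) = z) (Set.finite_Icc (-(l g : ℤ)) (l g))).1
      (.of_forall fun n => ⟨_, by
        have := lip n g (x n); have := lip' n g (x n); constructor <;> omega, rfl⟩)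
    exact ⟨z, fun a e => (hz.and ((lim_eq U x a g).1 e)).mono fun n hn => hn.2 ▸ hn.1⟩
  choose ξ hξ using li
  refine ⟨ξ, fun g y => ?_, fun y => ?_, fun g y hg => ?_⟩ <;>
    obtain ⟨a, rfl⟩ := QuotientGroup.mk_surjective y
  · obtain ⟨n, h1, h2⟩ := ((hξ _ a rfl).and (hξ (g • (a : G ⧸ lim U x)) (g * a) rfl)).exists
    have := lip n g (a • x n)
    rw [mul_smul] at h2
    omega
  · obtain ⟨s, s1, s2⟩ := (Ultrafilter.eventually_exists_mem_iff (f := U)
      (P := fun (s : G) n => D n (s • a • x n) + 1 = D n (a • x n)) (h.fin 1)).1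
      (((eventually_ge_atTop (l a)).filter_mono Nat.hyperfilter_le_atTop).mono fun n hn => by
        obtain ⟨g, g1, g2⟩ := D1 n (a • x n)
        rcases e : D n (a • x n) with _ | m
        · rw [h.zero g (by omega), one_smul] at g2
          exact (g2 (k1 n _ ⟨a, hn, rfl⟩)).elim
        · obtain ⟨s, b, s1, s2, s3⟩ := h.step g⁻¹ m (by rw [h.inv]; omega)
          have := D2 n (s⁻¹ • a • x n) b⁻¹ (by rwa [← mul_smul b⁻¹, ← mul_inv_rev, ← s3, inv_inv])
          have := lip' n s⁻¹ (a • x n)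
          have := h.inv s
          have := h.inv b
          exact ⟨s⁻¹, (h.inv s).trans_le s1, by omega⟩)
    obtain ⟨n, h1, h2, h3⟩ := (s2.and ((hξ _ a rfl).and
      (hξ (s • (a : G ⧸ lim U x)) (s * a) rfl))).exists
    rw [mul_smul] at h3
    exact ⟨s, s1, by omega⟩
  · obtain ⟨i, -, i2⟩ := (Ultrafilter.eventually_exists_mem_iff (f := U)
      (P := fun (i : ℕ) n => g ^ i • a • x n ≠ a • x n ∧ D n (g ^ i • a • x n) ≤ D n (a • x n))
      (Set.finite_lt_nat p)).1
      ((Ultrafilter.eventually_not.2 (mt (lim_eq U x (g * a) a).2 hg)).mono fun n hn => by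
        obtain ⟨b, a1, a2⟩ := D1 n (a • x n)
        obtain ⟨i, i1, i2⟩ := not_one hq hp (g := b * g * b⁻¹) (y := b • a • x n)
          (by simpa [mul_smul] using hn) a2
        simp only [conj_pow, mul_smul, inv_smul_smul, ne_eq, smul_left_cancel_iff] at i1 i2
        rw [pow_mod hp g] at i1 i2
        exact ⟨i % p, Nat.mod_lt _ hq.pos, i1, (D2 n _ b i2).trans a1⟩)
    obtain ⟨n, h1, h2, h3⟩ := (i2.and ((hξ _ a rfl).and
      (hξ (g ^ i • (a : G ⧸ lim U x)) (g ^ i * a) rfl))).exists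
    rw [mul_smul] at h3
    refine ⟨i, fun e => ?_, by have := h1.2; omega⟩
    obtain ⟨m, m1, m2⟩ := (i2.and ((lim_eq U x (g ^ i * a) a).1 e)).exists
    exact m1.1 (mul_smul _ a (x m) ▸ m2)

theorem no_hor [MulAction.IsPretransitive G X] [Infinite X] (hl : Len l) {c : ℕ} {φ : ℕ → ℕ}
    (hy : ∀ (y : X) r, Cs l c y r (φ r)) (hq : p.Prime) (hp : ∀ (g : G) (z : X), g ^ p • z = z)
    {ξ : X → ℤ} (h : Hor l ξ) : False := by
  have : ∀ m, ∃ D, Ok l ξ D m := fun m => by
    induction m with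
    | zero =>
      obtain ⟨x⟩ : Nonempty X := inferInstance
      refine ⟨0, fun M => ⟨{x}, x, by simp, fun g y hy _ z hz => ?_, by simp⟩⟩
      simp only [Finset.coe_singleton, Set.mem_singleton_iff] at hy hz
      simp [hy, hz]
    | succ m ih =>
      obtain ⟨D, ho⟩ := ih
      by_contra hn
      exact hn (cf_step hl h p (cf_start hl h hq hp ho fun e => hn ⟨_, e⟩))
  obtain ⟨D, ho⟩ := this _
  exact not_ok hl h hy (p := p - 1) (by rwa [Nat.sub_add_cancel hq.one_le]) ho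

theorem no_cut [MulAction.IsPretransitive G X] [Infinite X] (hl : Len l) {c : ℕ} {φ : ℕ → ℕ}
    (hy : ∀ (y : X) r, Cs l c y r (φ r)) (hq : p.Prime) (hp : ∀ (g : G) (z : X), g ^ p • z = z) :
    False := by
  choose x k k1 k2 using hl.no_base hy (p := p - 1) (by rwa [Nat.sub_add_cancel hq.one_le])
  obtain ⟨ξ, h⟩ := hl.lim_hor hq hp x k k1 k2
  have := hl.lim_inf (hyperfilter ℕ) x fun r => .of_forall fun n => by
    obtain ⟨y, hy⟩ := (hl.bl_fin (x n) r).infinite_compl.nonempty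
    obtain ⟨g, rfl⟩ := MulAction.exists_smul_eq G (x n) y
    exact ⟨g, hy⟩
  refine no_hor hl (c := c) (φ := φ) (fun z r => ?_) hq (fun w z => ?_) h <;>
    obtain ⟨v, rfl⟩ := QuotientGroup.mk_surjective z
  · exact hl.lim_cs _ x v (.of_forall fun n => hy _ r)
  · exact (lim_eq _ x (w ^ p * v) v).2 (.of_forall fun n => by rw [mul_smul, hp])

theorem Len.cut (hl : Len l) (hq : p.Prime) (c : ℕ) (φ : ℕ → ℕ) :
    ∃ d, ∀ (X : Type) [MulAction G X] (x : X),
      (∀ y ∈ bl l x d, ∀ w : G, l w ≤ d → w ^ p • y = y) →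
      (∀ y ∈ bl l x d, ∀ r ≤ d, Cs l c y r (φ r)) → ∀ g : G, g • x ∈ bl l x d := by
  by_contra hc
  push Not at hc
  choose Y i x h1 h4 g h3 using hc
  let U := hyperfilter ℕ
  have ev : ∀ k, ∀ᶠ n in (U : Filter ℕ), k ≤ n := fun k =>
    (eventually_ge_atTop k).filter_mono Nat.hyperfilter_le_atTop
  have := hl.lim_inf U x fun r => (ev r).mono fun n hn => ⟨g n, fun e => h3 n (bl_mono _ hn e)⟩
  refine no_cut (X := G ⧸ lim U x) (c := c) (φ := φ) hl (fun z r => ?_) hq fun w z => ?_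
  · obtain ⟨v, rfl⟩ := QuotientGroup.mk_surjective z
    refine hl.lim_cs U x v ?_
    filter_upwards [ev (l v), ev r] with n e1 e2
    exact h4 n _ ⟨v, e1, rfl⟩ r e2
  · obtain ⟨v, rfl⟩ := QuotientGroup.mk_surjective z
    refine (lim_eq U x (w ^ p * v) v).2 ?_
    filter_upwards [ev (l v), ev (l w)] with n e1 e2
    rw [mul_smul, h1 n _ ⟨v, e1, rfl⟩ w e2]

end Pool.Agent.Thin
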